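import Pool.Agent.H32.N6W.Targets

/-!
# The choice lemma for several polynomials
-/

set_option autoImplicit false

open Polynomial NumberField IsDedekindDomain Matrix Pool.Agent.H32.QC Pool.Agent.H34.N6
open Pool.Agent.H13.DEV Pool.Agent.H34.N6V Pool.Agent.H63.WT Pool.Agent.H32.N6W
open Pool.Agent.H65.N6P

namespace Pool.Agent.H4.N6W

theorem pf_APF (hAPX : T_APX) : T_APF := by
  intro k _ _ F _ φ hφ P n m A ε hP hA
  induction n with
  | zero =>
    refine ⟨fun i => i.elim0, fun i => i.elim0, ?_, ?_⟩
    · simp only [Finset.univ_eq_empty, Finset.prod_empty]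
      exact separable_one
    · simp only [Finset.univ_eq_empty, Finset.prod_empty]
      exact isCoprime_one_left
  | succ n ih =>
    obtain ⟨B, hB, hs, hc⟩ := ih (fun i => A i.succ) (fun i => ε i.succ) fun i => hA i.succ
    have hQ0 : P * ∏ i, ∏ j, B i j ≠ 0 := by
      refine mul_ne_zero hP (Monic.ne_zero ?_)
      exact monic_prod_of_monic _ _ fun i _ => monic_prod_of_monic _ _ fun j _ => (hB i j).1
    obtain ⟨Aj, h1, h2, h3⟩ := hAPX k F φ hφ (P * ∏ i, ∏ j, B i j) (A 0) m (ε 0) hQ0 (hA 0).1
      (hA 0).2.1 (hA 0).2.2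
    refine ⟨Fin.cons Aj B, ?_, ?_, ?_⟩
    · intro i
      refine Fin.cases ?_ (fun i => ?_) i
      · intro j
        rw [Fin.cons_zero]
        exact h1 j
      · intro j
        rw [Fin.cons_succ]
        exact hB i j
    · rw [Fin.prod_univ_succ]
      simp only [Fin.cons_zero, Fin.cons_succ]
      exact h2.mul hs h3.of_mul_right_right
    · rw [Fin.prod_univ_succ]
      simp only [Fin.cons_zero, Fin.cons_succ]
      exact IsCoprime.mul_left h3.of_mul_right_left hc

end Pool.Agent.H4.N6W
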