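import Pool.Agent.H32.N6W.Targets

/-!
# Nearby polynomials are prime to `P`
-/

set_option autoImplicit false

open Polynomial NumberField IsDedekindDomain Matrix Pool.Agent.H32.QC Pool.Agent.H34.N6
open Pool.Agent.H13.DEV Pool.Agent.H34.N6V Pool.Agent.H63.WT Pool.Agent.H32.N6W

namespace Pool.Agent.H4.N6W

theorem det_near {F : Type} [NormedField F] {N : ℕ} (M₀ : Matrix (Fin N) (Fin N) F)
    (h : M₀.det ≠ 0) : ∃ ε : ℝ, 0 < ε ∧ ∀ M : Matrix (Fin N) (Fin N) F,
    (∀ i j, ‖M i j - M₀ i j‖ < ε) → M.det ≠ 0 := by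
  have hc : Continuous fun M : Fin N → Fin N → F => (Matrix.of M).det := by
    exact Continuous.matrix_det continuous_id
  have ho : IsOpen {M : Fin N → Fin N → F | (Matrix.of M).det ≠ 0} :=
    isOpen_ne.preimage hc
  obtain ⟨ε, hε, hb⟩ := Metric.isOpen_iff.1 ho (fun i j => M₀ i j) h
  refine ⟨ε, hε, fun M hM => ?_⟩
  have h1 : (fun i j => M i j) ∈ Metric.ball (fun i j => M₀ i j) ε := by
    rw [Metric.mem_ball, dist_pi_lt_iff hε]
    intro i
    rw [dist_pi_lt_iff hε]
    intro j
    rw [dist_eq_norm]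
    exact hM i j
  exact hb h1

theorem cop_near {k F : Type} [Field k] [NormedField F] (φ : k →+* F) (P G : k[X])
    (hG : G.Monic) (h : IsCoprime G P) : ∃ ε : ℝ, 0 < ε ∧
    ∀ G' : k[X], G'.Monic → G'.natDegree = G.natDegree →
      (∀ i, ‖φ ((G' - G).coeff i)‖ < ε) → IsCoprime G' P := by
  have h0 : resultant G P ≠ 0 := resultant_ne_zero G P h
  have h1 : (φ.mapMatrix (sylvester G P G.natDegree P.natDegree)).det ≠ 0 := by
    rw [← RingHom.map_det]
    exact (map_ne_zero φ).2 h0
  obtain ⟨ε, hε, hM⟩ := det_near _ h1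
  refine ⟨ε, hε, fun G' hG' hd hcl => ?_⟩
  have h2 := hM (φ.mapMatrix (sylvester G' P G.natDegree P.natDegree)) ?_
  · rw [← RingHom.map_det, map_ne_zero φ] at h2
    rw [← isUnit_resultant_iff_isCoprime hG', isUnit_iff_ne_zero]
    unfold resultant
    rw [hd]
    exact h2
  · intro i j
    rw [RingHom.mapMatrix_apply, RingHom.mapMatrix_apply, Matrix.map_apply, Matrix.map_apply,
      ← map_sub]
    have h3 : ‖φ 0‖ < ε := by
      rw [map_zero, norm_zero]
      exact hε
    induction j using Fin.addCases with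
    | left j =>
      simp only [sylvester, Matrix.of_apply, Fin.addCases_left, sub_self]
      exact h3
    | right j =>
      simp only [sylvester, Matrix.of_apply, Fin.addCases_right]
      split_ifs with h4
      · rw [← coeff_sub]
        exact hcl _
      · rw [sub_self]
        exact h3

theorem pf_CPN : T_CPN := by
  intro k _ _ v P G _ hG h
  rcases v with v | φ
  · obtain ⟨ε, hε, h1⟩ := cop_near (ic v) P G hG h
    exact ⟨ε, hε, fun G' hG' hd hcl => h1 G' hG' hd hcl⟩
  · obtain ⟨ε, hε, h1⟩ := cop_near φ P G hG h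
    exact ⟨ε, hε, fun G' hG' hd hcl => h1 G' hG' hd fun i => hcl i⟩

end Pool.Agent.H4.N6W
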