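import Pool.Agent.H32.N6W.Targets

/-!
# The family of the irreducible factors
-/

set_option autoImplicit false

open Polynomial NumberField IsDedekindDomain Matrix Pool.Agent.H32.QC Pool.Agent.H34.N6
open Pool.Agent.H13.DEV Pool.Agent.H34.N6V Pool.Agent.H63.WT Pool.Agent.H32.N6W

namespace Pool.Agent.H4.N6W

theorem pf_FM3 : T_FM3 := by
  classical
  intro k _ P hP hsep
  have hP0 : P ≠ 0 := hP.ne_zero
  obtain ⟨T, hT⟩ : ∃ T : Finset k[X],
      T = (UniqueFactorizationMonoid.normalizedFactors P).toFinset := ⟨_, rfl⟩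
  have hnd : (UniqueFactorizationMonoid.normalizedFactors P).Nodup :=
    (UniqueFactorizationMonoid.squarefree_iff_nodup_normalizedFactors hP0).1 hsep.squarefree
  have hprod : ∏ q ∈ T, q = P := by
    rw [hT]
    have h1 := UniqueFactorizationMonoid.prod_normalizedFactors_eq hP0
    rw [hP.normalize_eq_self] at h1
    rw [Finset.prod, Multiset.toFinset_val, Multiset.dedup_eq_self.2 hnd, Multiset.map_id']
    exact h1
  have hmem : ∀ q ∈ T, q.Monic ∧ Irreducible q ∧ q ∣ P := by
    intro q hq
    rw [hT, Multiset.mem_toFinset] at hq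
    have hi := UniqueFactorizationMonoid.irreducible_of_normalized_factor q hq
    refine ⟨?_, hi, UniqueFactorizationMonoid.dvd_of_mem_normalizedFactors hq⟩
    have h1 := UniqueFactorizationMonoid.normalize_normalized_factor q hq
    rw [← h1]
    exact monic_normalize hi.ne_zero
  have hcopr : ∀ i j : T, i ≠ j → IsCoprime (i : k[X]) (j : k[X]) := by
    intro i j hij
    obtain ⟨mi, ii, -⟩ := hmem _ i.2
    obtain ⟨mj, ij, -⟩ := hmem _ j.2
    rw [ii.coprime_iff_not_dvd]
    intro hd
    apply hij
    apply Subtype.ext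
    exact eq_of_monic_of_associated mi mj (ii.associated_of_dvd ij hd)
  have hcopR : ∀ j : T, IsCoprime (j : k[X]) (∏ i ∈ Finset.univ.erase j, (i : k[X])) := by
    intro j
    apply IsCoprime.prod_right
    intro i hi
    exact hcopr j i (Finset.ne_of_mem_erase hi).symm
  choose a b hab using hcopR
  have hprod' : ∏ j : T, (j : k[X]) = P := by
    rw [Finset.prod_coe_sort T (fun q => q)]
    exact hprod
  refine ⟨T, inferInstance, inferInstance, fun j => (j : k[X]),
    fun j => b j * ∏ i ∈ Finset.univ.erase j, (i : k[X]), ⟨fun j => (hmem _ j.2).1,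
      fun j => (hmem _ j.2).2.1, ?_, ?_⟩, hprod'⟩
  · intro j
    refine ⟨-a j, ?_⟩
    linear_combination hab j
  · intro i j hij
    apply Dvd.dvd.mul_left
    exact Finset.dvd_prod_of_mem (fun i : T => (i : k[X]))
      (Finset.mem_erase.2 ⟨hij, Finset.mem_univ _⟩)

end Pool.Agent.H4.N6W
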